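import Pool.Agent.H597R2.SAP.Meet
import Pool.Agent.H981R2.Unfold

/-!
Half-plane arcs: the total critical weight of the self-avoiding walks in the half-plane between
two boundary points is bounded.
-/

namespace H597S

open H981
open scoped ENNReal

/-- the reversed path -/
def nr (w : List St) : List St := (sg (ng w)).reverse

lemma sg_ng (w : List St) : sg (ng w) = ng (sg w) := by
  induction w with
  | nil => rfl
  | cons s w ih =>
    simp only [ng_cons, sg_cons, ih]
    congr 1
    cases s <;> rfl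

@[simp] lemma nr_nil : nr [] = [] := rfl
@[simp] lemma nr_append (u w : List St) : nr (u ++ w) = nr w ++ nr u := by simp [nr]
@[simp] lemma length_nr (w : List St) : (nr w).length = w.length := by simp [nr]
@[simp] lemma dx_nr (w : List St) : dx (nr w) = - dx w := by simp [nr]
@[simp] lemma dy_nr (w : List St) : dy (nr w) = - dy w := by simp [nr]
@[simp] lemma nr_nr (w : List St) : nr (nr w) = w := by
  unfold nr
  rw [ng_reverse, sg_reverse, List.reverse_reverse, ← sg_ng, sg_sg, ng_ng]

lemma nr_inj {u w : List St} (h : nr u = nr w) : u = w := by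
  have := congrArg nr h; simpa using this

lemma suffix_of_prefix_nr {u w : List St} (h : u <+: nr w) : nr u <:+ w := by
  obtain ⟨t, ht⟩ := h
  refine ⟨nr t, ?_⟩
  have := congrArg nr ht
  simpa using this

lemma prefix_nr_of_suffix {u w : List St} (h : u <:+ w) : nr u <+: nr w := by
  obtain ⟨t, rfl⟩ := h
  exact ⟨nr t, by simp⟩

lemma saw_nr {w : List St} (h : Saw w) : Saw (nr w) := (h.ng.sg).reverse

/-- putting a step `E` in front of a word that stays weakly to the right of its start and weakly
to the left of its end -/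
lemma isBr_cons_E {w : List St} (hS : Saw w) (h0 : ∀ u, u <+: w → 0 ≤ dx u)
    (h1 : ∀ u, u <+: w → dx u ≤ dx w) {a : ℕ} (ha : dx w + 1 = a) : IsBr a (St.E :: w) := by
  refine ⟨?_, ?_, ?_, ?_⟩
  · intro m hm hx hy
    rcases List.infix_cons_iff.mp hm with h | h
    · rcases List.prefix_cons_iff.mp h with h | ⟨t, rfl, h'⟩
      · exact h
      · have := h0 t h'
        simp at hx; omega
    · exact hS m h hx hy
  · intro u hu h2
    rcases List.prefix_cons_iff.mp hu with h | ⟨t, rfl, h⟩
    · exact absurd h h2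
    · have := h0 t h
      simp; omega
  · intro u hu
    rcases List.prefix_cons_iff.mp hu with h | ⟨t, rfl, h⟩
    · have := h0 w (List.prefix_refl _)
      subst h; simp
    · have := h1 t h
      simp; omega
  · simp; omega

/-- self-avoiding words in the half-plane `x ≥ 0` from `(0,0)` to `(0,h)` -/
def Arc (h : ℤ) (t : List St) : Prop := Saw t ∧ (∀ u, u <+: t → 0 ≤ dx u) ∧ dx t = 0 ∧ dy t = h

/-- an arc, cut at its last visit to its rightmost column, is a pair of bridges meeting for the
first time at their end -/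
lemma arc_pair {h : ℤ} (hh : h ≠ 0) {t : List St} (ht : Arc h t) :
    ∃ β ρ, t = β ++ ρ ∧ PM h (St.E :: nr ρ, St.E :: β) := by
  obtain ⟨hS, h0, hx, hy⟩ := ht
  obtain ⟨β, ρ, rfl, h1, h2⟩ := exists_last_max t
  refine ⟨β, ρ, rfl, ?_⟩
  have hβ0 : 0 ≤ dx β := h0 β ⟨ρ, rfl⟩
  obtain ⟨a, ha⟩ : ∃ a : ℕ, dx β = a := ⟨(dx β).toNat, by omega⟩
  have hρ : dx ρ = - a := by simp at hx; omega
  have h2' : ∀ v, v <+: ρ → dx v ≤ 0 := by
    intro v hv
    by_cases hv0 : v = []
    · simp [hv0]
    · exact (h2 v hv hv0).le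
  have hX' : IsBr (a + 1) (St.E :: β) := by
    refine isBr_cons_E (hS.subw ⟨[], ρ, by simp⟩) ?_ h1 (by push_cast; omega)
    intro u hu
    exact h0 u (hu.trans ⟨ρ, rfl⟩)
  have hX : IsBr (a + 1) (St.E :: nr ρ) := by
    have hSρ : Saw ρ := hS.subw ⟨β, [], by simp⟩
    refine isBr_cons_E (saw_nr hSρ) ?_ ?_ (by rw [dx_nr]; push_cast; omega)
    · intro u hu
      obtain ⟨r, hr⟩ := suffix_of_prefix_nr hu
      have h3 := h0 (β ++ r) ⟨nr u, by rw [List.append_assoc, hr]⟩
      have h4 := congrArg dx hr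
      simp at h3 h4
      omega
    · intro u hu
      obtain ⟨r, hr⟩ := suffix_of_prefix_nr hu
      have h3 := h2' r ⟨nr u, hr⟩
      have h4 := congrArg dx hr
      simp at h4 ⊢
      omega
  refine ⟨⟨hX.isB, hX'.isB, by simp only; rw [hX.wd, hX'.wd], ?_⟩, ?_⟩
  · simp at hy ⊢; omega
  · intro c X1 X2 X1' X2' hc s1 s2 hd
    simp only at hc s1 s2
    rw [hX.wd] at hc
    rcases Nat.eq_zero_or_pos c with rfl | hc0
    · have e1 := s1.2.1.eq_nil
      have e2 := s2.2.1.eq_nil
      subst e1; subst e2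
      simp at hd
      exact hh hd.symm
    · obtain ⟨e1, b1, -⟩ := s1
      obtain ⟨e2, b2, -⟩ := s2
      obtain ⟨u1, rfl⟩ := b1.cons (b1.ne_nil hc0)
      obtain ⟨u2, rfl⟩ := b2.cons (b2.ne_nil hc0)
      simp only [List.cons_append, List.cons.injEq, true_and] at e1 e2
      have d1 := b1.dx
      have d2 := b2.dx
      simp only [dx_cons, dy_cons, St.x_E, St.y_E] at d1 d2 hd
      obtain ⟨r, hr⟩ := suffix_of_prefix_nr (u := u1) ⟨X2, e1.symm⟩
      have hm : X2' ++ r <:+: β ++ ρ := ⟨u2, nr u1, by rw [e2, ← hr]; simp⟩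
      have g1 := congrArg dx hr
      have g2 := congrArg dy hr
      have g3 := congrArg dx e2
      have g4 := congrArg dy e2
      simp only [dx_append, dy_append, dx_nr, dy_nr] at g1 g2 g3 g4 hx hy
      have h5 := hS _ hm (by rw [dx_append]; omega) (by rw [dy_append]; omega)
      have h6 : X2' = [] := (List.append_eq_nil_iff.mp h5).1
      subst h6
      simp at g3
      omega

/-- **The critical weight of the half-plane arcs between two given boundary points is at most
`μ²`** (for `z < 1/μ`). -/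
theorem arc_le {z : ℝ≥0∞} (hB : BB z ≠ ⊤) {h : ℤ} (hh : h ≠ 0) :
    ∑' t : List St, ind (Arc h t) * z ^ (t.length + 2) ≤ 1 := by
  refine le_trans ?_ (PM_le_one hB h)
  unfold TW
  refine tsum_cover _ _ _ _ (fun p : LL => p.2.tail ++ nr p.1.tail) ?_
  intro t ht
  obtain ⟨β, ρ, rfl, h1⟩ := arc_pair hh ht
  refine ⟨_, h1, by simp, le_of_eq ?_⟩
  simp only [len2, List.length_cons, length_nr, List.length_append]
  congr 1; ring

end H597S
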