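import Pool.Agent.H981R2.Gen

/-!
Pairs of bridges whose end points differ by a vertical vector, first meetings at common renewal
lines.
-/

namespace H597S

open H981
open scoped ENNReal

/-- pairs of bridges with the same width and end heights differing by `s` -/
def PD (s : ℤ) (p : LL) : Prop := IsB p.1 ∧ IsB p.2 ∧ wd p.1 = wd p.2 ∧ dy p.2 = dy p.1 + s

/-- the difference of the heights takes the value `s` at the end, but at no earlier common renewal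
line -/
def PM (s : ℤ) (p : LL) : Prop := PD s p ∧ ∀ c X1 X2 X1' X2', c < wd p.1 → Spl c p.1 X1 X2 →
  Spl c p.2 X1' X2' → dy X1' ≠ dy X1 + s

/-- total weight of the pairs with property `P` -/
noncomputable def TW (z : ℝ≥0∞) (P : LL → Prop) : ℝ≥0∞ := ∑' p : LL, ind (P p) * z ^ len2 p

lemma aux_inj {s : ℤ} {X X' Y Y' q q' r r' : List St} (hX : IsB X) (hX' : IsB X')
    (hw : wd X = wd X') (hd : dy X' = dy X + s)
    (hY : PM s (Y, Y')) (hq : IsB q) (hq' : IsB q') (hr : IsB r) (hr' : IsB r')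
    (h : X ++ q = Y ++ r) (h' : X' ++ q' = Y' ++ r') : ¬ (wd X < wd Y) := by
  intro hlt
  obtain ⟨⟨hY1, hY2, hY3, -⟩, hY5⟩ := hY
  simp only at hY1 hY2 hY3 hY5
  have s1 : Spl (wd X) (X ++ q) X q := ⟨rfl, hX.br, hq⟩
  have s2 : Spl (wd Y) (X ++ q) Y r := ⟨h, hY1.br, hr⟩
  have s1' : Spl (wd X) (X' ++ q') X' q' := ⟨rfl, by rw [hw]; exact hX'.br, hq'⟩
  have s2' : Spl (wd Y) (X' ++ q') Y' r' := ⟨h', by rw [hY3]; exact hY2.br, hr'⟩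
  obtain ⟨M, h1, -, h3⟩ := s1.refine s2 hlt.le
  obtain ⟨M', h1', -, h3'⟩ := s1'.refine s2' hlt.le
  exact hY5 (wd X) X M X' M' hlt ⟨h1, hX.br, h3.isB⟩ ⟨h1', by rw [hw]; exact hX'.br, h3'.isB⟩ hd

/-- first meeting decomposition -/
theorem meet_mul (z : ℝ≥0∞) (s : ℤ) : TW z (PM s) * TW z (PD 0) ≤ TW z (PD s) := by
  unfold TW
  rw [tsum_mul_tsum' (fun p : LL => ind (PM s p) * z ^ len2 p)
    (fun p : LL => ind (PD 0 p) * z ^ len2 p)]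
  have e : ∀ p : LL × LL, ind (PM s p.1) * z ^ len2 p.1 * (ind (PD 0 p.2) * z ^ len2 p.2) =
      ind (PM s p.1 ∧ PD 0 p.2) * (z ^ len2 p.1 * z ^ len2 p.2) := by
    intro p; rw [ind_and]; ring
  simp_rw [e]
  refine tsum_inj _ _ _ _
    (fun p : LL × LL => ((p.1.1 ++ p.2.1, p.1.2 ++ p.2.2) : LL)) ?_ ?_ ?_
  · rintro ⟨⟨X, X'⟩, ⟨q, q'⟩⟩ ⟨⟨Y, Y'⟩, ⟨r, r'⟩⟩ ⟨hX, hq⟩ ⟨hY, hr⟩ heq
    simp only [Prod.mk.injEq] at heq hX hq hY hr ⊢
    obtain ⟨h, h'⟩ := heq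
    obtain ⟨hX1, hX2, hX3, hX4⟩ := hX.1
    obtain ⟨hY1, hY2, hY3, hY4⟩ := hY.1
    obtain ⟨hq1, hq2, -, -⟩ := hq
    obtain ⟨hr1, hr2, -, -⟩ := hr
    simp only at hX1 hX2 hX3 hX4 hY1 hY2 hY3 hY4 hq1 hq2 hr1 hr2
    have n1 := aux_inj hX1 hX2 hX3 hX4 hY hq1 hq2 hr1 hr2 h h'
    have n2 := aux_inj hY1 hY2 hY3 hY4 hX hr1 hr2 hq1 hq2 h.symm h'.symm
    have he : wd X = wd Y := by omega
    have s1 : Spl (wd X) (X ++ q) X q := ⟨rfl, hX1.br, hq1⟩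
    have s2 : Spl (wd X) (X ++ q) Y r := ⟨h, by rw [he]; exact hY1.br, hr1⟩
    have s1' : Spl (wd X) (X' ++ q') X' q' := ⟨rfl, by rw [hX3]; exact hX2.br, hq2⟩
    have s2' : Spl (wd X) (X' ++ q') Y' r' := ⟨h', by rw [he, hY3]; exact hY2.br, hr2⟩
    obtain ⟨e1, e2⟩ := s1.unique s2
    obtain ⟨e1', e2'⟩ := s1'.unique s2'
    exact ⟨⟨e1, e1'⟩, ⟨e2, e2'⟩⟩
  · rintro ⟨⟨X, X'⟩, ⟨q, q'⟩⟩ ⟨⟨⟨hX1, hX2, hX3, hX4⟩, -⟩, ⟨hq1, hq2, hq3, hq4⟩⟩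
    simp only at hX1 hX2 hX3 hX4 hq1 hq2 hq3 hq4
    refine ⟨hX1.append hq1, hX2.append hq2, ?_, ?_⟩
    · simp only
      rw [wd_append hX1 hq1, wd_append hX2 hq2, hX3, hq3]
    · simp only [dy_append]
      rw [hX4, hq4]; ring
  · rintro ⟨⟨X, X'⟩, ⟨q, q'⟩⟩ -
    apply le_of_eq
    simp only [len2, List.length_append]
    rw [← pow_add]
    congr 1; ring

/-- weight of the bridges from the origin to `(a, h)` -/
noncomputable def bh (z : ℝ≥0∞) (a : ℕ) (h : ℤ) : ℝ≥0∞ :=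
  ∑' X : List St, ind (IsBr a X ∧ dy X = h) * z ^ X.length

lemma TW_PD (z : ℝ≥0∞) (s : ℤ) :
    TW z (PD s) = ∑' q : ℕ × ℤ, bh z q.1 q.2 * bh z q.1 (q.2 + s) := by
  have e1 : ∀ q : ℕ × ℤ, bh z q.1 q.2 * bh z q.1 (q.2 + s) = ∑' p : LL,
      ind ((IsBr q.1 p.1 ∧ dy p.1 = q.2) ∧ (IsBr q.1 p.2 ∧ dy p.2 = q.2 + s)) * z ^ len2 p := by
    intro q
    unfold bh
    rw [tsum_mul_tsum' (fun X : List St => ind (IsBr q.1 X ∧ dy X = q.2) * z ^ X.length)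
      (fun X : List St => ind (IsBr q.1 X ∧ dy X = q.2 + s) * z ^ X.length)]
    congr 1; ext p
    rw [ind_and (_ ∧ _) (_ ∧ _), len2, pow_add]; ring
  simp_rw [e1]
  rw [ENNReal.tsum_comm]
  unfold TW
  congr 1; ext p
  rw [ENNReal.tsum_mul_right]
  congr 1
  by_cases hp : PD s p
  · rw [ind_of hp, tsum_eq_single (wd p.1, dy p.1)]
    · rw [ind_of]
      obtain ⟨h1, h2, h3, h4⟩ := hp
      exact ⟨⟨h1.br, rfl⟩, ⟨by simp only; rw [h3]; exact h2.br, h4⟩⟩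
    · rintro ⟨a, h⟩ hne
      apply ind_not
      rintro ⟨⟨h1, h2⟩, -⟩
      simp only at h1 h2
      exact hne (by rw [← h2, h1.wd])
  · rw [ind_not hp]
    symm
    rw [ENNReal.tsum_eq_zero]
    rintro ⟨a, h⟩
    apply ind_not
    rintro ⟨⟨h1, h2⟩, h3, h4⟩
    simp only at h1 h2 h3 h4
    exact hp ⟨h1.isB, h3.isB, by rw [h1.wd, h3.wd], by rw [h4, h2]⟩

/-- Cauchy–Schwarz -/
theorem PD_le (z : ℝ≥0∞) (s : ℤ) : TW z (PD s) ≤ TW z (PD 0) := by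
  have h2 : 2 * TW z (PD s) ≤ 2 * TW z (PD 0) := by
    calc 2 * TW z (PD s) = ∑' q : ℕ × ℤ, 2 * (bh z q.1 q.2 * bh z q.1 (q.2 + s)) := by
          rw [TW_PD, ← ENNReal.tsum_mul_left]
      _ ≤ ∑' q : ℕ × ℤ, (bh z q.1 q.2 * bh z q.1 q.2 +
            bh z q.1 (q.2 + s) * bh z q.1 (q.2 + s)) :=
          ENNReal.tsum_le_tsum fun q => two_mul_le _ _
      _ = ∑' q : ℕ × ℤ, bh z q.1 q.2 * bh z q.1 q.2 +
            ∑' q : ℕ × ℤ, bh z q.1 (q.2 + s) * bh z q.1 (q.2 + s) := ENNReal.tsum_add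
      _ = TW z (PD 0) + TW z (PD 0) := by
          congr 1
          · rw [TW_PD]; simp
          · rw [TW_PD]
            rw [← (Equiv.prodCongr (Equiv.refl ℕ) (Equiv.addRight s)).tsum_eq
              (fun q : ℕ × ℤ => bh z q.1 q.2 * bh z q.1 (q.2 + 0))]
            simp
      _ = 2 * TW z (PD 0) := by ring
  have h3 : (2:ℝ≥0∞) ≠ 0 := by norm_num
  have h4 : (2:ℝ≥0∞) ≠ ⊤ := by norm_num
  exact (ENNReal.mul_le_mul_iff_right h3 h4).mp h2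

lemma one_le_PD (z : ℝ≥0∞) : 1 ≤ TW z (PD 0) := by
  have h := ENNReal.le_tsum (f := fun p : LL => ind (PD 0 p) * z ^ len2 p) (([], []) : LL)
  have h2 : ind (PD 0 (([], []) : LL)) = 1 := ind_of ⟨isB_nil, isB_nil, rfl, by simp⟩
  rw [h2] at h
  simpa [len2, TW] using h

lemma PD_ne_top {z : ℝ≥0∞} (hB : BB z ≠ ⊤) : TW z (PD 0) ≠ ⊤ := by
  refine ne_top_of_le_ne_top (ENNReal.mul_ne_top hB hB) ?_
  unfold TW BB
  rw [tsum_mul_tsum' (fun X => ind (IsB X) * z ^ X.length) (fun X => ind (IsB X) * z ^ X.length)]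
  apply ENNReal.tsum_le_tsum
  intro p
  calc ind (PD 0 p) * z ^ len2 p ≤ ind (IsB p.1 ∧ IsB p.2) * z ^ len2 p := by
        gcongr
        exact ind_mono fun h => ⟨h.1, h.2.1⟩
    _ = _ := by rw [ind_and, len2, pow_add]; ring

/-- **First meeting bound.** -/
theorem PM_le_one {z : ℝ≥0∞} (hB : BB z ≠ ⊤) (s : ℤ) : TW z (PM s) ≤ 1 := by
  have h1 := (meet_mul z s).trans (PD_le z s)
  have h2 : TW z (PD 0) ≠ 0 := by
    intro h
    have := one_le_PD z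
    rw [h] at this
    simp at this
  have h3 : TW z (PM s) * TW z (PD 0) ≤ 1 * TW z (PD 0) := by rwa [one_mul]
  exact (ENNReal.mul_le_mul_iff_left h2 (PD_ne_top hB)).mp h3

end H597S
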