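import Pool.Agent.H597R2.SAP.Arc
import Pool.Agent.H981R2.Plain

/-!
Self-avoiding polygons of the square lattice, opened at an edge of their leftmost column, are
half-plane arcs.  Upper bound for the polygon series.
-/

namespace H597S

open H981
open scoped ENNReal

/-- rooted oriented self-avoiding polygons with `m` edges, as functions on `ZMod m` -/
def IsPoly (m : ℕ) (f : ZMod m → ℤ × ℤ) : Prop :=
  f 0 = 0 ∧ Function.Injective f ∧
    ∀ i : ZMod m, |(f (i+1)).1 - (f i).1| + |(f (i+1)).2 - (f i).2| = 1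

/-- the arcs obtained from polygons with `m` edges -/
def PA (m : ℕ) (t : List St) : Prop := (Arc 1 t ∨ Arc (-1) t) ∧ t.length + 1 = m

lemma finite_length (n : ℕ) (P : List St → Prop) (hP : ∀ t, P t → t.length = n) :
    Finite {t : List St // P t} := by
  have h : {l : List St | l.length = n}.Finite := List.finite_length_eq St n
  exact (h.subset fun t ht => hP t ht).to_subtype

instance finite_PA (m : ℕ) : Finite {t : List St // PA m t} :=
  finite_length (m - 1) _ fun t ht => by have := ht.2; omega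

/-- a polygon has an edge inside its leftmost column -/
lemma exists_left_edge {m : ℕ} (hm : 3 ≤ m) {f : ZMod m → ℤ × ℤ} (hf : IsPoly m f) :
    ∃ k : ZMod m, (∀ j, (f k).1 ≤ (f j).1) ∧ (f (k - 1)).1 = (f k).1 := by
  have : NeZero m := ⟨by omega⟩
  have : Fintype (ZMod m) := ZMod.fintype m
  obtain ⟨h0, hinj, hadj⟩ := hf
  obtain ⟨k0, hk0⟩ := Finite.exists_min (fun j : ZMod m => (f j).1)
  have a1 := hadj k0
  have a2 := hadj (k0 - 1)
  rw [sub_add_cancel] at a2
  have hmin1 := hk0 (k0 + 1)
  have hmin2 := hk0 (k0 - 1)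
  have hne : f (k0 + 1) ≠ f (k0 - 1) := by
    intro h
    have h1 := hinj h
    have h2 : (2 : ZMod m) = 0 := by
      have : k0 + 1 - (k0 - 1) = (2 : ZMod m) := by ring
      rw [← this, h1, sub_self]
    have h3 : ((2 : ℕ) : ZMod m) = 0 := by exact_mod_cast h2
    rw [ZMod.natCast_eq_zero_iff] at h3
    have := Nat.le_of_dvd (by norm_num) h3
    omega
  by_cases h1 : (f (k0 - 1)).1 = (f k0).1
  · exact ⟨k0, hk0, h1⟩
  · refine ⟨k0 + 1, ?_, ?_⟩
    · intro j
      have h2 : (f (k0 + 1)).1 = (f k0).1 := by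
        by_contra h3
        apply hne
        apply Prod.ext
        · have q1 : (f (k0 + 1)).1 = (f k0).1 + 1 := by
            rcases abs_cases ((f (k0 + 1)).1 - (f k0).1) with h | h <;>
            rcases abs_cases ((f (k0 + 1)).2 - (f k0).2) with h' | h' <;> omega
          have q2 : (f (k0 - 1)).1 = (f k0).1 + 1 := by
            rcases abs_cases ((f k0).1 - (f (k0 - 1)).1) with h | h <;>
            rcases abs_cases ((f k0).2 - (f (k0 - 1)).2) with h' | h' <;> omega
          rw [q1, q2]
        · have q1 : (f (k0 + 1)).2 = (f k0).2 := by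
            rcases abs_cases ((f (k0 + 1)).1 - (f k0).1) with h | h <;>
            rcases abs_cases ((f (k0 + 1)).2 - (f k0).2) with h' | h' <;> omega
          have q2 : (f (k0 - 1)).2 = (f k0).2 := by
            rcases abs_cases ((f k0).1 - (f (k0 - 1)).1) with h | h <;>
            rcases abs_cases ((f k0).2 - (f (k0 - 1)).2) with h' | h' <;> omega
          rw [q1, q2]
      rw [h2]; exact hk0 j
    · rw [add_sub_cancel_right]
      by_contra h3
      apply hne
      apply Prod.ext
      · have q1 : (f (k0 + 1)).1 = (f k0).1 + 1 := by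
          rcases abs_cases ((f (k0 + 1)).1 - (f k0).1) with h | h <;>
          rcases abs_cases ((f (k0 + 1)).2 - (f k0).2) with h' | h' <;> omega
        have q2 : (f (k0 - 1)).1 = (f k0).1 + 1 := by
          rcases abs_cases ((f k0).1 - (f (k0 - 1)).1) with h | h <;>
          rcases abs_cases ((f k0).2 - (f (k0 - 1)).2) with h' | h' <;> omega
        rw [q1, q2]
      · have q1 : (f (k0 + 1)).2 = (f k0).2 := by
          rcases abs_cases ((f (k0 + 1)).1 - (f k0).1) with h | h <;>
          rcases abs_cases ((f (k0 + 1)).2 - (f k0).2) with h' | h' <;> omega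
        have q2 : (f (k0 - 1)).2 = (f k0).2 := by
          rcases abs_cases ((f k0).1 - (f (k0 - 1)).1) with h | h <;>
          rcases abs_cases ((f k0).2 - (f (k0 - 1)).2) with h' | h' <;> omega
        rw [q1, q2]

/-- the word of a polygon started at `k` -/
lemma exists_poly_word {m : ℕ} (hm : 3 ≤ m) {f : ZMod m → ℤ × ℤ} (hf : IsPoly m f) :
    ∃ (k : ZMod m) (t : List St), PA m t ∧
      ∀ i : ℕ, i < m → path t i = f (k + i) - f k := by
  have : NeZero m := ⟨by omega⟩
  obtain ⟨k, hk, hk1⟩ := exists_left_edge hm hf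
  obtain ⟨h0, hinj, hadj⟩ := hf
  obtain ⟨n, rfl⟩ : ∃ n, m = n + 1 := ⟨m - 1, by omega⟩
  have hSAW : IsSAW n (fun i : Fin (n + 1) => f (k + (i : ℕ)) - f k) := by
    refine ⟨by simp; rfl, ?_, ?_⟩
    · intro i
      have h1 := hadj (k + (i : ℕ))
      simp only [Fin.val_succ, Fin.val_castSucc, Prod.fst_sub, Prod.snd_sub]
      have e1 : k + ((i : ℕ) + 1 : ℕ) = k + (i : ℕ) + 1 := by push_cast; ring
      rw [e1]
      have e2 : ∀ a b c : ℤ, a - b - (c - b) = a - c := by intros; ring
      rw [e2, e2]; exact h1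
    · intro i j hij
      simp only [sub_left_inj] at hij
      have h1 := hinj hij
      have h2 : ((i : ℕ) : ZMod (n + 1)) = ((j : ℕ) : ZMod (n + 1)) := add_left_cancel h1
      rw [ZMod.natCast_eq_natCast_iff'] at h2
      apply Fin.ext
      rwa [Nat.mod_eq_of_lt i.2, Nat.mod_eq_of_lt j.2] at h2
  obtain ⟨t, ht, hp⟩ := exists_word' n _ hSAW
  have hS : Saw t := by
    rw [saw_iff n ht]
    have : (fun i : Fin (n + 1) => path t i) = fun i : Fin (n + 1) => f (k + (i : ℕ)) - f k :=
      funext hp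
    rw [this]; exact hSAW.2.2
  have hp' : ∀ i : ℕ, i < n + 1 → path t i = f (k + i) - f k := fun i hi => hp ⟨i, hi⟩
  have hlast : path t n = (dx t, dy t) := by simp [path, ← ht]
  have hkn : k + (n : ℕ) = k - 1 := by
    have : ((n + 1 : ℕ) : ZMod (n + 1)) = 0 := ZMod.natCast_self _
    push_cast at this
    linear_combination this
  have hfin : (dx t, dy t) = f (k - 1) - f k := by
    rw [← hlast, hp' n (by omega), hkn]
  have hdx : dx t = 0 := by
    have := congrArg Prod.fst hfin
    simp only [Prod.fst_sub] at this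
    omega
  have hdy : dy t = 1 ∨ dy t = -1 := by
    have h1 := congrArg Prod.snd hfin
    simp only [Prod.snd_sub] at h1
    have h2 := hadj (k - 1)
    rw [sub_add_cancel, hk1] at h2
    rcases abs_cases ((f k).2 - (f (k - 1)).2) with h | h <;> simp at h2 <;> omega
  have hpos : ∀ u, u <+: t → 0 ≤ dx u := by
    intro u hu
    have h1 : u = t.take u.length := List.prefix_iff_eq_take.mp hu
    have h2 := hu.length_le
    have h3 := hp' u.length (by omega)
    have h4 := congrArg Prod.fst h3
    simp only [path, Prod.fst_sub] at h4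
    rw [← h1] at h4
    have := hk (k + (u.length : ℕ))
    omega
  refine ⟨k, t, ⟨?_, by omega⟩, hp'⟩
  rcases hdy with h | h
  · exact Or.inl ⟨hS, hpos, hdx, h⟩
  · exact Or.inr ⟨hS, hpos, hdx, h⟩

/-- polygons are determined by the starting index and the word -/
lemma poly_inj {m : ℕ} (hm : 3 ≤ m) {f g : ZMod m → ℤ × ℤ} (hf : IsPoly m f) (hg : IsPoly m g)
    {k : ZMod m} {t : List St} (h1 : ∀ i : ℕ, i < m → path t i = f (k + i) - f k)
    (h2 : ∀ i : ℕ, i < m → path t i = g (k + i) - g k) : f = g := by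
  have : NeZero m := ⟨by omega⟩
  have key : ∀ j : ZMod m, f j - f k = g j - g k := by
    intro j
    have e : k + ((j - k).val : ℕ) = j := by
      rw [ZMod.natCast_zmod_val]; ring
    have a := h1 (j - k).val (ZMod.val_lt _)
    have b := h2 (j - k).val (ZMod.val_lt _)
    rw [e] at a b
    rw [← a, ← b]
  have h0 := key 0
  rw [hf.1, hg.1] at h0
  have hk : f k = g k := by simpa using h0
  funext j
  have := key j
  rw [hk] at this
  exact sub_left_injective this

theorem card_poly_le {m : ℕ} (hm : 3 ≤ m) :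
    Nat.card {f : ZMod m → ℤ × ℤ // IsPoly m f} ≤ m * Nat.card {t : List St // PA m t} := by
  have : NeZero m := ⟨by omega⟩
  choose k t hPA hp using fun f : {f : ZMod m → ℤ × ℤ // IsPoly m f} => exists_poly_word hm f.2
  have h1 : Nat.card {f : ZMod m → ℤ × ℤ // IsPoly m f} ≤
      Nat.card (ZMod m × {t : List St // PA m t}) := by
    apply Nat.card_le_card_of_injective
      (fun f : {f : ZMod m → ℤ × ℤ // IsPoly m f} => ((k f, ⟨t f, hPA f⟩) :
        ZMod m × {t : List St // PA m t}))
    intro f g hfg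
    simp only [Prod.mk.injEq, Subtype.mk.injEq] at hfg
    apply Subtype.ext
    refine poly_inj hm f.2 g.2 (hp f) ?_
    rw [hfg.1, hfg.2]
    exact hp g
  rwa [Nat.card_prod, Nat.card_zmod] at h1

/-- finiteness of the set of polygons -/
theorem finite_poly {m : ℕ} (hm : 3 ≤ m) : Finite {f : ZMod m → ℤ × ℤ // IsPoly m f} := by
  have : NeZero m := ⟨by omega⟩
  choose k t hPA hp using fun f : {f : ZMod m → ℤ × ℤ // IsPoly m f} => exists_poly_word hm f.2
  apply Finite.of_injective
      (fun f : {f : ZMod m → ℤ × ℤ // IsPoly m f} => ((k f, ⟨t f, hPA f⟩) :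
        ZMod m × {t : List St // PA m t}))
  intro f g hfg
  simp only [Prod.mk.injEq, Subtype.mk.injEq] at hfg
  apply Subtype.ext
  refine poly_inj hm f.2 g.2 (hp f) ?_
  rw [hfg.1, hfg.2]
  exact hp g

/-- number of self-avoiding polygons of perimeter `2n`, up to translation -/
noncomputable def pp (n : ℕ) : ℝ :=
  (Nat.card {f : ZMod (2 * n) → ℤ × ℤ // IsPoly (2 * n) f} : ℝ) / (4 * (n : ℝ))

lemma pp_nonneg (n : ℕ) : 0 ≤ pp n := by unfold pp; positivity

lemma pp_le {n : ℕ} (hn : 2 ≤ n) : pp n ≤ (Nat.card {t : List St // PA (2 * n) t} : ℝ) / 2 := by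
  unfold pp
  have h := card_poly_le (m := 2 * n) (by omega)
  have h' : (Nat.card {f : ZMod (2 * n) → ℤ × ℤ // IsPoly (2 * n) f} : ℝ) ≤
      (2 * n) * (Nat.card {t : List St // PA (2 * n) t} : ℝ) := by exact_mod_cast h
  have hn' : (0 : ℝ) < n := by exact_mod_cast (by omega : 0 < n)
  rw [div_le_div_iff₀ (by positivity) (by norm_num)]
  nlinarith

lemma ofReal_card (P : List St → Prop) [Finite {t // P t}] :
    ENNReal.ofReal (Nat.card {t : List St // P t} : ℝ) = ∑' t, ind (P t) := by
  have hfin : ∑' t, ind (P t) ≠ ⊤ := by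
    have h1 : ∑' a, ind (P a) = ∑' a : ({a | P a} : Set (List St)), (1 : ENNReal) := by
      rw [tsum_subtype {a | P a} (fun _ => (1 : ENNReal))]
      refine tsum_congr fun a => ?_
      by_cases ha : P a <;> simp [ind, ha]
    rw [h1, ENNReal.tsum_set_one]
    have : ({a | P a} : Set (List St)).Finite := Set.finite_coe_iff.mp (inferInstanceAs (Finite {t // P t}))
    rw [this.encard_eq_coe_toFinset_card]
    simp
  rw [← tsum_ind_eq_card P hfin, ENNReal.ofReal_toReal hfin]

/-- sum over the arcs -/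
lemma sum_PA_le {z : ℝ≥0∞} (hB : BB z ≠ ⊤) (N : ℕ) :
    ∑ n ∈ Finset.range N, (∑' t, ind (PA (2 * (n + 2)) t)) * z ^ (2 * (n + 2) + 1) ≤ 2 := by
  have h1 : ∀ n : ℕ, (∑' t, ind (PA (2 * (n + 2)) t)) * z ^ (2 * (n + 2) + 1) =
      ∑' t : List St, ind (PA (2 * (n + 2)) t) * z ^ (t.length + 2) := by
    intro n
    rw [← ENNReal.tsum_mul_right]
    refine tsum_congr fun t => ?_
    by_cases h : PA (2 * (n + 2)) t
    · rw [show t.length + 2 = 2 * (n + 2) + 1 by have := h.2; omega]
    · simp [ind_not h]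
  simp_rw [h1]
  rw [← Summable.tsum_finsetSum (fun _ _ => ENNReal.summable)]
  calc ∑' t : List St, ∑ n ∈ Finset.range N, ind (PA (2 * (n + 2)) t) * z ^ (t.length + 2)
      ≤ ∑' t : List St, (ind (Arc 1 t) * z ^ (t.length + 2) +
          ind (Arc (-1) t) * z ^ (t.length + 2)) := by
        apply ENNReal.tsum_le_tsum
        intro t
        rw [← Finset.sum_mul, ← add_mul]
        gcongr
        by_cases hA : Arc 1 t ∨ Arc (-1) t
        · have h2 : ∑ n ∈ Finset.range N, ind (PA (2 * (n + 2)) t) ≤ 1 := by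
            by_cases hex : ∃ n ∈ Finset.range N, PA (2 * (n + 2)) t
            · obtain ⟨n, hn, hP⟩ := hex
              rw [Finset.sum_eq_single n]
              · exact ind_le_one _
              · intro n' _ hne
                apply ind_not
                intro h
                have := h.2; have := hP.2
                omega
              · intro h; exact absurd hn h
            · push Not at hex
              rw [Finset.sum_eq_zero fun n hn => ind_not (hex n hn)]
              exact zero_le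
          refine h2.trans ?_
          rcases hA with h | h
          · rw [ind_of h]; exact le_self_add
          · rw [ind_of h]; exact le_add_self
        · rw [Finset.sum_eq_zero fun n _ => ind_not (fun h : PA (2 * (n + 2)) t => hA h.1)]
          exact zero_le
    _ = ∑' t : List St, ind (Arc 1 t) * z ^ (t.length + 2) +
          ∑' t : List St, ind (Arc (-1) t) * z ^ (t.length + 2) := ENNReal.tsum_add
    _ ≤ 1 + 1 := add_le_add (arc_le hB (by norm_num)) (arc_le hB (by norm_num))
    _ = 2 := by norm_num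

lemma sum_pp_sub {ζ : ℝ} (h0 : 0 < ζ) (h1 : ζ * mu < 1) (N : ℕ) :
    ∑ n ∈ Finset.range N, pp (n + 2) * ζ ^ (2 * (n + 2) + 1) ≤ 1 := by
  have hB := BB_ne_top h0 h1
  have h2 := sum_PA_le hB N
  have h3 : ∑ n ∈ Finset.range N, (Nat.card {t : List St // PA (2 * (n + 2)) t} : ℝ) *
      ζ ^ (2 * (n + 2) + 1) ≤ 2 := by
    have e : ∑ n ∈ Finset.range N, (∑' t, ind (PA (2 * (n + 2)) t)) *
        (ENNReal.ofReal ζ) ^ (2 * (n + 2) + 1) = ENNReal.ofReal (∑ n ∈ Finset.range N,
          (Nat.card {t : List St // PA (2 * (n + 2)) t} : ℝ) * ζ ^ (2 * (n + 2) + 1)) := by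
      rw [ENNReal.ofReal_sum_of_nonneg (fun i _ => by positivity)]
      apply Finset.sum_congr rfl
      intro n _
      rw [ENNReal.ofReal_mul (by positivity), ofReal_card, ENNReal.ofReal_pow h0.le]
    rw [e] at h2
    have h4 : (2 : ℝ≥0∞) = ENNReal.ofReal 2 := by norm_num
    rw [h4] at h2
    exact (ENNReal.ofReal_le_ofReal_iff (by norm_num)).mp h2
  have h5 : ∑ n ∈ Finset.range N, pp (n + 2) * ζ ^ (2 * (n + 2) + 1) ≤
      ∑ n ∈ Finset.range N, (Nat.card {t : List St // PA (2 * (n + 2)) t} : ℝ) / 2 *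
        ζ ^ (2 * (n + 2) + 1) := by
    apply Finset.sum_le_sum
    intro n _
    have := pp_le (n := n + 2) (by omega)
    gcongr
  have h6 : ∑ n ∈ Finset.range N, (Nat.card {t : List St // PA (2 * (n + 2)) t} : ℝ) / 2 *
        ζ ^ (2 * (n + 2) + 1) = (∑ n ∈ Finset.range N,
          (Nat.card {t : List St // PA (2 * (n + 2)) t} : ℝ) * ζ ^ (2 * (n + 2) + 1)) / 2 := by
    rw [Finset.sum_div]
    apply Finset.sum_congr rfl
    intro n _; ring
  linarith

lemma sum_pp_crit (N : ℕ) : ∑ n ∈ Finset.range N, pp (n + 2) * (1 / mu) ^ (2 * (n + 2) + 1) ≤ 1 := by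
  have hmu := mu_pos
  have hcont : Continuous fun ζ : ℝ => ∑ n ∈ Finset.range N, pp (n + 2) * ζ ^ (2 * (n + 2) + 1) := by
    fun_prop
  have hlim : Filter.Tendsto (fun ζ : ℝ => ∑ n ∈ Finset.range N, pp (n + 2) *
      ζ ^ (2 * (n + 2) + 1)) (nhdsWithin (1 / mu) (Set.Ioo 0 (1 / mu)))
      (nhds (∑ n ∈ Finset.range N, pp (n + 2) * (1 / mu) ^ (2 * (n + 2) + 1))) :=
    (hcont.tendsto _).mono_left nhdsWithin_le_nhds
  have hne : (nhdsWithin (1 / mu) (Set.Ioo 0 (1 / mu))).NeBot := by
    have : (0:ℝ) < 1 / mu := by positivity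
    exact right_nhdsWithin_Ioo_neBot this
  refine le_of_tendsto hlim ?_
  filter_upwards [self_mem_nhdsWithin] with ζ hζ
  refine sum_pp_sub hζ.1 ?_ N
  have := hζ.2
  rwa [lt_div_iff₀ hmu] at this

theorem sum_pp_le (N : ℕ) : ∑ n ∈ Finset.range N, pp (n + 2) / mu ^ (2 * (n + 2)) ≤ mu := by
  have hmu := mu_pos
  have h := sum_pp_crit N
  have e : ∑ n ∈ Finset.range N, pp (n + 2) * (1 / mu) ^ (2 * (n + 2) + 1) =
      (∑ n ∈ Finset.range N, pp (n + 2) / mu ^ (2 * (n + 2))) / mu := by
    rw [Finset.sum_div]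
    apply Finset.sum_congr rfl
    intro n _
    rw [one_div, inv_pow, pow_succ]
    field_simp
  rw [e, div_le_one hmu] at h
  exact h

theorem summable_pp : Summable (fun n : ℕ => pp (n + 2) / mu ^ (2 * (n + 2))) :=
  summable_of_sum_range_le (fun n => by have := pp_nonneg (n + 2); have := mu_pos; positivity)
    sum_pp_le

/-- **The critical polygon series converges.** -/
theorem tsum_pp_le : ∑' n : ℕ, pp (n + 2) / mu ^ (2 * (n + 2)) ≤ mu :=
  Real.tsum_le_of_sum_range_le (fun n => by have := pp_nonneg (n + 2); have := mu_pos; positivity)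
    sum_pp_le

end H597S
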